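import Mathlib

/-!
# Gaps in grids of products plus one that are squares

If `a < b`, `c < d` are positive integers and `ac + 1`, `ad + 1`, `bc + 1`, `bd + 1` are squares, then
`bd > (7 + 4 √3) ac`: the two products `P² = (ac+1)(bd+1)` and `Q² = (ad+1)(bc+1)` differ by
`(b - a)(d - c)`, so `(b - a)(d - c) ≥ 2 Q + 1 > 2 √(abcd)`, while
`(b - a)(d - c) ≤ (√(bd) - √(ac))²`.
-/

set_option autoImplicit false

namespace Pool.Agent.Results.MP_719a5e_nt.GapInGrids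

theorem gap {a b c d : ℕ} (ha : 0 < a) (hc : 0 < c) (hab : a < b) (hcd : c < d)
    (h1 : IsSquare (a * c + 1)) (h2 : IsSquare (a * d + 1)) (h3 : IsSquare (b * c + 1))
    (h4 : IsSquare (b * d + 1)) :
    (7 + 4 * Real.sqrt 3) * ((a : ℝ) * c) < (b : ℝ) * d := by
  obtain ⟨r, hr⟩ := h1
  obtain ⟨p, hp⟩ := h2
  obtain ⟨q, hq⟩ := h3
  obtain ⟨s, hs⟩ := h4
  have hr' : (a : ℝ) * c + 1 = r * r := by exact_mod_cast hr
  have hp' : (a : ℝ) * d + 1 = p * p := by exact_mod_cast hp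
  have hq' : (b : ℝ) * c + 1 = q * q := by exact_mod_cast hq
  have hs' : (b : ℝ) * d + 1 = s * s := by exact_mod_cast hs
  have ha0 : (0 : ℝ) < a := by exact_mod_cast ha
  have hc0 : (0 : ℝ) < c := by exact_mod_cast hc
  have hab' : (a : ℝ) < b := by exact_mod_cast hab
  have hcd' : (c : ℝ) < d := by exact_mod_cast hcd
  have hb0 : (0 : ℝ) < b := ha0.trans hab'
  have hd0 : (0 : ℝ) < d := hc0.trans hcd'
  have hE : 0 < ((b : ℝ) - a) * (d - c) := mul_pos (by linarith) (by linarith)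
  have hdiff : ((r : ℝ) * s) ^ 2 - ((p : ℝ) * q) ^ 2 = ((b : ℝ) - a) * (d - c) := by
    calc ((r : ℝ) * s) ^ 2 - ((p : ℝ) * q) ^ 2 = (r * r) * (s * s) - (p * p) * (q * q) := by ring
      _ = ((a : ℝ) * c + 1) * (b * d + 1) - (a * d + 1) * (b * c + 1) := by
          rw [hr', hs', hp', hq']
      _ = _ := by ring
  have hpq0 : (0 : ℝ) ≤ (p : ℝ) * q := by positivity
  have hrs0 : (0 : ℝ) ≤ (r : ℝ) * s := by positivity
  have hlt : (p : ℝ) * q < (r : ℝ) * s := by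
    apply lt_of_pow_lt_pow_left₀ 2 hrs0
    linarith
  have hltn : p * q + 1 ≤ r * s := by
    have : p * q < r * s := by exact_mod_cast hlt
    omega
  have hle : (p : ℝ) * q + 1 ≤ r * s := by exact_mod_cast hltn
  have hEge : 2 * ((p : ℝ) * q) + 1 ≤ ((b : ℝ) - a) * (d - c) := by
    rw [← hdiff]
    nlinarith
  obtain ⟨X, hX⟩ : ∃ X : ℝ, X = Real.sqrt ((a : ℝ) * c) := ⟨_, rfl⟩
  obtain ⟨Y, hY⟩ : ∃ Y : ℝ, Y = Real.sqrt ((b : ℝ) * d) := ⟨_, rfl⟩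
  have hX0 : 0 < X := by rw [hX]; exact Real.sqrt_pos.2 (by positivity)
  have hY0 : 0 < Y := by rw [hY]; exact Real.sqrt_pos.2 (by positivity)
  have hX2 : X ^ 2 = (a : ℝ) * c := by rw [hX]; exact Real.sq_sqrt (by positivity)
  have hY2 : Y ^ 2 = (b : ℝ) * d := by rw [hY]; exact Real.sq_sqrt (by positivity)
  have hXY : X < Y := by
    rw [hX, hY]
    apply Real.sqrt_lt_sqrt (by positivity)
    nlinarith
  have hpq : X * Y < (p : ℝ) * q := by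
    apply lt_of_pow_lt_pow_left₀ 2 hpq0
    have e1 : ((p : ℝ) * q) ^ 2 = (a * d + 1) * (b * c + 1) := by
      rw [hp', hq']
      ring
    have e2 : (X * Y) ^ 2 = (a * c) * (b * d) := by
      rw [mul_pow, hX2, hY2]
    rw [e1, e2]
    nlinarith [mul_pos ha0 hd0, mul_pos hb0 hc0]
  have hamgm : 2 * (X * Y) ≤ (a : ℝ) * d + b * c := by
    have h5 : (X * Y) ^ 2 = ((a : ℝ) * d) * (b * c) := by
      rw [mul_pow, hX2, hY2]
      ring
    have h6 : (2 * (X * Y)) ^ 2 ≤ ((a : ℝ) * d + b * c) ^ 2 := by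
      rw [mul_pow, h5]
      nlinarith [sq_nonneg ((a : ℝ) * d - b * c)]
    exact le_of_sq_le_sq h6 (by positivity)
  have hmain : 4 * (X * Y) < X ^ 2 + Y ^ 2 := by
    have h7 : ((b : ℝ) - a) * (d - c) = Y ^ 2 + X ^ 2 - (a * d + b * c) := by
      rw [hX2, hY2]
      ring
    linarith
  have h30 : 0 ≤ Real.sqrt 3 := Real.sqrt_nonneg 3
  have h33 : Real.sqrt 3 ^ 2 = 3 := Real.sq_sqrt (by norm_num)
  have hfin : (2 + Real.sqrt 3) * X < Y := by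
    by_contra hcon
    push Not at hcon
    have h8 : 0 ≤ (Y - (2 - Real.sqrt 3) * X) := by
      have : (2 - Real.sqrt 3) * X ≤ 1 * X := by
        apply mul_le_mul_of_nonneg_right _ hX0.le
        nlinarith
      linarith
    have h9 : (Y - (2 + Real.sqrt 3) * X) * (Y - (2 - Real.sqrt 3) * X) ≤ 0 :=
      mul_nonpos_of_nonpos_of_nonneg (by linarith) h8
    have h10 : (Y - (2 + Real.sqrt 3) * X) * (Y - (2 - Real.sqrt 3) * X) =
        Y ^ 2 + X ^ 2 * (4 - Real.sqrt 3 ^ 2) - 4 * (X * Y) := by ring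
    rw [h10, h33] at h9
    linarith
  have h11 : ((2 + Real.sqrt 3) * X) ^ 2 < Y ^ 2 := pow_lt_pow_left₀ hfin (by positivity) two_ne_zero
  rw [mul_pow, hX2, hY2] at h11
  have h12 : (2 + Real.sqrt 3) ^ 2 = 7 + 4 * Real.sqrt 3 := by
    calc (2 + Real.sqrt 3) ^ 2 = 4 + 4 * Real.sqrt 3 + Real.sqrt 3 ^ 2 := by ring
      _ = _ := by rw [h33]; ring
  rw [h12] at h11
  exact h11

theorem pos_of_chain (a : ℕ → ℕ) (h0 : 0 < a 0) (n : ℕ) (h : ∀ i < n, a i < a (i + 1)) :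
    ∀ i ≤ n, 0 < a i := by
  intro i hi
  induction i with
  | zero => exact h0
  | succ i _ => exact lt_of_le_of_lt (Nat.zero_le _) (h i (by omega))

theorem grid (n : ℕ) : ∀ (a b : ℕ → ℕ), (∀ i < n, a i < a (i + 1)) → (∀ i < n, b i < b (i + 1)) →
    0 < a 0 → 0 < b 0 → (∀ i ≤ n, ∀ j ≤ n, IsSquare (a i * b j + 1)) →
    (7 + 4 * Real.sqrt 3) ^ n * ((a 0 : ℝ) * b 0) ≤ (a n : ℝ) * b n := by
  induction n with
  | zero =>
    intro a b _ _ _ _ _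
    simp
  | succ n ih =>
    intro a b ha hb ha0 hb0 h
    have h1 := ih a b (fun i hi => ha i (by omega)) (fun i hi => hb i (by omega)) ha0 hb0
      (fun i hi j hj => h i (by omega) j (by omega))
    have h2 := gap (a := a n) (b := a (n + 1)) (c := b n) (d := b (n + 1))
      (pos_of_chain a ha0 (n + 1) ha n (by omega)) (pos_of_chain b hb0 (n + 1) hb n (by omega))
      (ha n (Nat.lt_succ_self n)) (hb n (Nat.lt_succ_self n))
      (h n (by omega) n (by omega)) (h n (by omega) (n + 1) le_rfl)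
      (h (n + 1) le_rfl n (by omega)) (h (n + 1) le_rfl (n + 1) le_rfl)
    have hk : 0 ≤ 7 + 4 * Real.sqrt 3 := by positivity
    calc (7 + 4 * Real.sqrt 3) ^ (n + 1) * ((a 0 : ℝ) * b 0)
        = (7 + 4 * Real.sqrt 3) * ((7 + 4 * Real.sqrt 3) ^ n * ((a 0 : ℝ) * b 0)) := by ring
      _ ≤ (7 + 4 * Real.sqrt 3) * ((a n : ℝ) * b n) := mul_le_mul_of_nonneg_left h1 hk
      _ ≤ _ := h2.le

/-- a three-element increasing rearrangement -/
theorem sort3 (a : Fin 3 → ℕ) (ha : Function.Injective a) :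
    ∃ σ : Fin 3 → Fin 3, a (σ 0) < a (σ 1) ∧ a (σ 1) < a (σ 2) := by
  have h01 : a 0 ≠ a 1 := fun h => absurd (ha h) (by decide)
  have h02 : a 0 ≠ a 2 := fun h => absurd (ha h) (by decide)
  have h12 : a 1 ≠ a 2 := fun h => absurd (ha h) (by decide)
  rcases lt_or_gt_of_ne h01 with x | x <;> rcases lt_or_gt_of_ne h02 with y | y <;>
    rcases lt_or_gt_of_ne h12 with z | z
  · exact ⟨![0, 1, 2], x, z⟩
  · exact ⟨![0, 2, 1], y, z⟩
  · omega
  · exact ⟨![2, 0, 1], y, x⟩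
  · exact ⟨![1, 0, 2], x, y⟩
  · omega
  · exact ⟨![1, 2, 0], z, y⟩
  · exact ⟨![2, 1, 0], z, x⟩

/-- (1) If `0 < a < b`, `0 < c < d` and `ac+1, ad+1, bc+1, bd+1` are squares then
`bd > (7 + 4√3) ac`.  (2) If `a_1, a_2, a_3` are distinct, `b_1, b_2, b_3` are distinct, all are
positive, all `a_i b_j + 1` are squares, and all six numbers lie in `[L, U]`, then
`U > (7 + 4√3) L > 13.9 L`.  (3) If `0 < a_0 < ... < a_n`, `0 < b_0 < ... < b_n` and all `a_i b_j + 1`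
are squares then `a_n b_n ≥ (7 + 4√3)^n a_0 b_0`. -/
theorem result :
    (∀ a b c d : ℕ, 0 < a → 0 < c → a < b → c < d → IsSquare (a * c + 1) → IsSquare (a * d + 1) →
      IsSquare (b * c + 1) → IsSquare (b * d + 1) →
      (7 + 4 * Real.sqrt 3) * ((a : ℝ) * c) < (b : ℝ) * d) ∧
    (∀ (a b : Fin 3 → ℕ), Function.Injective a → Function.Injective b →
      (∀ i j, IsSquare (a i * b j + 1)) → ∀ L U : ℝ, 0 < L →
      (∀ i, L ≤ a i ∧ (a i : ℝ) ≤ U) → (∀ j, L ≤ b j ∧ (b j : ℝ) ≤ U) →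
      (7 + 4 * Real.sqrt 3) * L < U ∧ 139 / 10 * L < U) ∧
    (∀ (n : ℕ) (a b : ℕ → ℕ), (∀ i < n, a i < a (i + 1)) → (∀ i < n, b i < b (i + 1)) →
      0 < a 0 → 0 < b 0 → (∀ i ≤ n, ∀ j ≤ n, IsSquare (a i * b j + 1)) →
      (7 + 4 * Real.sqrt 3) ^ n * ((a 0 : ℝ) * b 0) ≤ (a n : ℝ) * b n) := by
  refine ⟨fun a b c d ha hc hab hcd h1 h2 h3 h4 => gap ha hc hab hcd h1 h2 h3 h4, ?_, grid⟩
  intro a b ha hb h L U hL hA hB
  obtain ⟨σ, h1, h2⟩ := sort3 a ha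
  obtain ⟨τ, h3, h4⟩ := sort3 b hb
  have hpos : ∀ n : ℕ, L ≤ (n : ℝ) → 0 < n := by
    intro n hn
    have : (0 : ℝ) < n := lt_of_lt_of_le hL hn
    exact_mod_cast this
  have g1 := gap (hpos _ (hA (σ 0)).1) (hpos _ (hB (τ 0)).1) h1 h3 (h _ _) (h _ _) (h _ _) (h _ _)
  have g2 := gap (hpos _ (hA (σ 1)).1) (hpos _ (hB (τ 1)).1) h2 h4 (h _ _) (h _ _) (h _ _) (h _ _)
  obtain ⟨k, hk⟩ : ∃ k : ℝ, k = 7 + 4 * Real.sqrt 3 := ⟨_, rfl⟩
  rw [← hk] at g1 g2 ⊢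
  have hs : (173 : ℝ) / 100 ≤ Real.sqrt 3 := Real.le_sqrt_of_sq_le (by norm_num)
  have hk1 : 139 / 10 < k := by rw [hk]; linarith
  have hk0 : 0 < k := by linarith
  have hU0 : 0 < U := lt_of_lt_of_le hL ((hA 0).1.trans (hA 0).2)
  have l1 : L * L ≤ (a (σ 0) : ℝ) * b (τ 0) :=
    mul_le_mul (hA _).1 (hB _).1 hL.le (hL.le.trans (hA _).1)
  have u1 : (a (σ 2) : ℝ) * b (τ 2) ≤ U * U :=
    mul_le_mul (hA _).2 (hB _).2 (Nat.cast_nonneg _) hU0.le
  have g3 : k * (k * ((a (σ 0) : ℝ) * b (τ 0))) < k * ((a (σ 1) : ℝ) * b (τ 1)) :=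
    mul_lt_mul_of_pos_left g1 hk0
  have g4 : k * (k * (L * L)) ≤ k * (k * ((a (σ 0) : ℝ) * b (τ 0))) :=
    mul_le_mul_of_nonneg_left (mul_le_mul_of_nonneg_left l1 hk0.le) hk0.le
  have g5 : (k * L) ^ 2 < U ^ 2 := by
    calc (k * L) ^ 2 = k * (k * (L * L)) := by ring
      _ < U * U := by linarith
      _ = U ^ 2 := by ring
  have g6 : k * L < U := lt_of_pow_lt_pow_left₀ 2 hU0.le g5
  exact ⟨g6, lt_trans (mul_lt_mul_of_pos_right hk1 hL) g6⟩

end Pool.Agent.Results.MP_719a5e_nt.GapInGrids
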